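import Pool.Agent.Work.MP_8bc176_co.Hex3b
import Pool.Agent.Work.MP_8bc176_co.Hex5

set_option autoImplicit false

/-!
MP_8bc176_co: a convex hexagon and a basis of simplex measures in which all coordinates of the
measure of the hexagon are `1/2` or `-1/2`.
-/

namespace Pool.Agent.Results.MP_8bc176_co.BadBasis

open MeasureTheory Pool.Agent.Work.MP_8bc176_co Pool.Agent.Work.MP_8bc176_co.Hex

/-- **The literal form of Q1.**  There is a convex hexagon `P` in the plane and a basis
`μ_{D 0}, …, μ_{D 9}` of `M^Δ(V(P))` consisting of simplex measures such that `μ_P` lies in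
`M^Δ(V(P))` and each of its ten coordinates in this basis is `1/2` or `-1/2`; so `μ_P` is not in the
additive group generated by this basis. -/
theorem result : ∃ P : Set (E 2), IsGenPolytope P ∧ Convex ℝ P ∧ (vertexSet P).ncard = 6 ∧
    P = convexHull ℝ (vertexSet P) ∧ stdMeasure P ∈ MDelta (vertexSet P) ∧
    ∃ D : Fin 10 → Finset (E 2),
      (∀ i, IsSimplex (D i) ∧ (D i : Set (E 2)) ⊆ vertexSet P) ∧
      LinearIndependent ℝ (fun i => simplexMeasure (D i)) ∧
      Submodule.span ℝ (Set.range fun i => simplexMeasure (D i)) = MDelta (vertexSet P) ∧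
      (∃ c : Fin 10 → ℝ, stdMeasure P = ∑ i, c i • simplexMeasure (D i) ∧ ∀ i, |c i| = 1 / 2) ∧
      stdMeasure P ∉ AddSubgroup.closure (Set.range fun i => simplexMeasure (D i)) := by
  refine ⟨Hx, gen_Hx, ?_, ?_, ?_, ?_, R10, ?_, li, ?_, ⟨cf, Hx_coord, cf_abs⟩, ?_⟩
  · exact convex_convexHull ℝ _
  · rw [vertexSet_Hx]
    exact S6_ncard
  · rw [vertexSet_Hx]
    exact Hx_def
  · rw [vertexSet_Hx, ← span_eq, Hx_coord]
    exact Submodule.sum_mem _ fun i _ =>
      Submodule.smul_mem _ _ (Submodule.subset_span ⟨i, rfl⟩)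
  · rw [vertexSet_Hx]
    exact R10_mem
  · rw [vertexSet_Hx]
    exact span_eq
  · rw [Hx_coord]
    exact notMem_closure li (cf_abs 0)

end Pool.Agent.Results.MP_8bc176_co.BadBasis
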