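import Pool.Agent.Work.MP_8bc176_co.Lattice

set_option autoImplicit false

namespace Pool.Agent.Results.MP_8bc176_co.Integral

open MeasureTheory Pool.Agent.Work.MP_8bc176_co

variable {d : ℕ}

theorem exists_basis (S : Set (E d)) (hS : S.Finite) :
    ∃ B : Finset (Finset (E d)), (∀ D ∈ B, IsSimplex D ∧ (D : Set (E d)) ⊆ S) ∧
      LinearIndependent ℝ (fun D : B => simplexMeasure (D : Finset (E d))) ∧
      Submodule.span ℝ (simplexMeasure '' (B : Set (Finset (E d)))) = MDelta S ∧
      AddSubgroup.closure (simplexMeasure '' (B : Set (Finset (E d)))) = Lambda S := by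
  classical
  obtain ⟨B, h1, h2, h3⟩ := exists_simplex_basis hS.toFinset
  have hsub : ∀ D ∈ B, IsSimplex D ∧ (D : Set (E d)) ⊆ S := by
    intro D hD
    refine ⟨(h1 D hD).1, ?_⟩
    intro x hx
    exact hS.mem_toFinset.1 ((h1 D hD).2 hx)
  have hgen : ∀ m ∈ simplexMeasures S, ∃ n : Finset (E d) → ℤ, m = ∑ C ∈ B, n C • simplexMeasure C := by
    rintro m ⟨D, hD, hDS, rfl⟩
    exact h2 D hD (fun x hx => hS.mem_toFinset.2 (hDS hx))
  have himg : simplexMeasure '' (B : Set (Finset (E d))) ⊆ simplexMeasures S := by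
    rintro m ⟨D, hD, rfl⟩
    exact ⟨D, (hsub D hD).1, (hsub D hD).2, rfl⟩
  refine ⟨B, hsub, ?_, ?_, ?_⟩
  · rw [Fintype.linearIndependent_iff]
    intro g hg i
    let a : Finset (E d) → ℝ := fun D => if h : D ∈ B then g ⟨D, h⟩ else 0
    have ha : ∀ r : ℝ, ∑ D ∈ B, (r * a D) • simplexMeasure D = 0 := by
      intro r
      have : ∑ D ∈ B, (r * a D) • simplexMeasure D = r • ∑ i, g i • simplexMeasure (i : Finset (E d)) := by
        rw [Finset.smul_sum, ← Finset.sum_coe_sort (s := B)]
        apply Finset.sum_congr rfl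
        intro D _
        simp only [a, D.2, dite_true, smul_smul]
      rw [this, hg, smul_zero]
    have hint : ∀ r : ℝ, ∃ m : ℤ, r * a i = m := by
      intro r
      refine h3 (fun D => r * a D) ?_ i i.2
      have h4 : dens B (fun D => r * a D) =ᵐ[volume] (0 : E d → ℝ) := by
        apply (integrable_dens B _).ae_eq_of_withDensityᵥ_eq (integrable_zero _ _ _)
        rw [withDensity_dens, ha r]
        exact withDensityᵥ_zero.symm
      filter_upwards [h4] with x hx
      exact ⟨0, by rw [hx]; simp⟩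
    have hai : a i = g i := by simp only [a, i.2, dite_true]
    by_contra hne
    obtain ⟨m, hm⟩ := hint (1 / (2 * g i))
    rw [hai] at hm
    have h5 : (1 : ℝ) / 2 = m := by rw [← hm]; field_simp
    have h6 : (1 : ℝ) = 2 * m := by linarith
    have h7 : (1 : ℤ) = 2 * m := by exact_mod_cast h6
    omega
  · apply le_antisymm
    · exact Submodule.span_mono himg
    · unfold MDelta
      rw [Submodule.span_le]
      intro m hm
      obtain ⟨n, rfl⟩ := hgen m hm
      apply Submodule.sum_mem
      intro C hC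
      rw [← Int.cast_smul_eq_zsmul ℝ (n C) (simplexMeasure C)]
      exact Submodule.smul_mem _ _ (Submodule.subset_span ⟨C, hC, rfl⟩)
  · apply le_antisymm
    · exact AddSubgroup.closure_mono himg
    · unfold Lambda
      rw [AddSubgroup.closure_le]
      intro m hm
      obtain ⟨n, rfl⟩ := hgen m hm
      apply AddSubgroup.sum_mem
      intro C hC
      have hCm : simplexMeasure C ∈ simplexMeasure '' (B : Set (Finset (E d))) := ⟨C, hC, rfl⟩
      exact AddSubgroup.zsmul_mem _ (AddSubgroup.subset_closure hCm) _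

/-- **Answer to Q1: no such `P` exists.**  Moreover, for every finite `S`, some basis of `M^Δ(S)`
formed by simplex measures generates the group `Λ(S)` of all simplex measures with vertices in
`S`, and every set `P` with `μ_P ∈ M^Δ(S)` satisfies `μ_P ∈ Λ(S)`. -/
theorem result :
    (¬ ∃ (d : ℕ) (P : Set (E d)), 1 ≤ d ∧ IsGenPolytope P ∧
      stdMeasure P ∈ MDelta (vertexSet P) ∧ stdMeasure P ∉ Lambda (vertexSet P)) ∧
    (∀ (d : ℕ) (S : Set (E d)), S.Finite →
      (∃ B : Finset (Finset (E d)), (∀ D ∈ B, IsSimplex D ∧ (D : Set (E d)) ⊆ S) ∧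
        LinearIndependent ℝ (fun D : B => simplexMeasure (D : Finset (E d))) ∧
        Submodule.span ℝ (simplexMeasure '' (B : Set (Finset (E d)))) = MDelta S ∧
        AddSubgroup.closure (simplexMeasure '' (B : Set (Finset (E d)))) = Lambda S) ∧
      ∀ P : Set (E d), stdMeasure P ∈ MDelta S → stdMeasure P ∈ Lambda S) := by
  refine ⟨?_, fun d S hS => ⟨exists_basis S hS, fun _ h => mem_lattice h⟩⟩
  rintro ⟨d, P, _, _, h1, h2⟩
  exact h2 (mem_lattice h1)

end Pool.Agent.Results.MP_8bc176_co.Integral
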